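import Pool.Agent.Helper66_KF.Stmts
import Pool.Agent.Helper75_PP.Quo
import Pool.Agent.Helper94_PP.Bridge

/-!
# Squad KF, module CQU
-/

open scoped BigOperators

set_option linter.unusedSectionVars false

noncomputable section

namespace Pool.Agent.PP.KF.H4

open Pool.Agent.Helper51_AWC Pool.Agent.Helper79_WRA Pool.Agent.PP

variable {F A B : Type} [Field F] [Group A] [Group B] [Finite A] [Finite B]

theorem isCl_actF {e f : A → F} (he : IsCl e) (hf : IsCl f) : IsCl (actF e f) := by
  have := Fintype.ofFinite A
  intro x y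
  unfold actF
  rw [finsum_eq_sum_of_fintype, finsum_eq_sum_of_fintype,
    ← Equiv.sum_comp (MulAut.conj y).toEquiv]
  apply Finset.sum_congr rfl
  intro t _
  change e (y * t * y⁻¹) * f (y * t * y⁻¹ * (y * x * y⁻¹)) = _
  have h : y * t * y⁻¹ * (y * x * y⁻¹) = y * (t * x) * y⁻¹ := by group
  rw [he, h, hf]

/-- the fixed class functions -/
theorem mem_img {e f : A → F} (he : IsIdem e) :
    f ∈ (cfs F A).map (actL e) ↔ IsCl f ∧ actF e f = f := by
  constructor
  · rintro ⟨g, hg, rfl⟩
    change IsCl (actF e g) ∧ actF e (actF e g) = actF e g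
    refine ⟨isCl_actF he.1 hg, ?_⟩
    rw [← actF_mulF, he.2]
  · rintro ⟨h1, h2⟩
    exact ⟨f, h1, h2⟩

/-- the pushforward as a linear map -/
def pushL (p : A →* B) : (A → F) →ₗ[F] (B → F) where
  toFun f := H75.push p f
  map_add' f g := by
    classical
    have := Fintype.ofFinite A
    funext y
    rw [Pi.add_apply, H75.push_eq, H75.push_eq, H75.push_eq, ← Finset.sum_add_distrib]
    apply Finset.sum_congr rfl
    intro x _
    split_ifs
    · rfl
    · rw [add_zero]
  map_smul' c f := by
    classical
    have := Fintype.ofFinite A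
    funext y
    rw [RingHom.id_apply, Pi.smul_apply, H75.push_eq, H75.push_eq, Finset.smul_sum]
    apply Finset.sum_congr rfl
    intro x _
    split_ifs
    · rfl
    · rw [smul_zero]

/-- the pull back as a linear map -/
def pullL (p : A →* B) : (B → F) →ₗ[F] (A → F) where
  toFun f x := f (p x)
  map_add' _ _ := rfl
  map_smul' _ _ := rfl

/-- the pushforward is equivariant -/
theorem push_actF {p : A →* B} (hp : Function.Surjective p) (e f : A → F) :
    H75.push p (actF e f) = actF (H75.push p e) (H75.push p f) := by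
  classical
  have := Fintype.ofFinite A
  have := Fintype.ofFinite B
  funext y
  obtain ⟨x₀, rfl⟩ := hp y
  rw [H75.actF_push]
  unfold actF
  rw [H75.push_eq, finsum_eq_sum_of_fintype]
  have h1 : ∀ x : A, (if p x = p x₀ then ∑ᶠ t, e t * f (t * x) else 0) =
      ∑ t, if p x = p x₀ then e t * f (t * x) else 0 := by
    intro x
    split_ifs
    · rw [finsum_eq_sum_of_fintype]
    · rw [Finset.sum_const_zero]
  rw [Finset.sum_congr rfl (fun x _ => h1 x), Finset.sum_comm]
  apply Finset.sum_congr rfl
  intro t _
  change _ = e t * H75.push p f (p (t * x₀))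
  rw [H75.push_eq, Finset.mul_sum, ← Equiv.sum_comp (Equiv.mulLeft t)
    (fun x => e t * if p x = p (t * x₀) then f x else 0)]
  apply Finset.sum_congr rfl
  intro x _
  change _ = e t * (if p (t * x) = p (t * x₀) then f (t * x) else 0)
  rw [map_mul, map_mul]
  simp only [mul_right_inj]
  by_cases h : p x = p x₀
  · rw [if_pos h, if_pos h]
  · rw [if_neg h, if_neg h, mul_zero]

theorem cqu : CquStmt := by
  classical
  intro F _ hF A B _ _ _ _ p hp _ hk e he
  have := Fintype.ofFinite A
  have := Fintype.ofFinite B
  have hchar := hF.char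
  have heB : IsIdem (H75.push p e) := H75.push_isIdem hp he
  -- the kernel
  obtain ⟨z, hz, hz1⟩ : ∃ z : A, z ∈ p.ker ∧ z ≠ 1 := by
    by_contra h
    push Not at h
    have h2 : p.ker = ⊥ := by
      rw [eq_bot_iff]
      intro x hx
      exact Subgroup.mem_bot.2 (h x hx)
    rw [h2, Subgroup.card_bot] at hk
    omega
  have hker : ∀ x, x ∈ p.ker → x = 1 ∨ x = z := by
    intro x hx
    by_contra h
    push Not at h
    have h3 : ({⟨1, one_mem _⟩, ⟨z, hz⟩, ⟨x, hx⟩} : Finset p.ker).card = 3 := by
      rw [Finset.card_eq_three]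
      refine ⟨⟨1, one_mem _⟩, ⟨z, hz⟩, ⟨x, hx⟩, ?_, ?_, ?_, rfl⟩
      · intro h4
        exact hz1 (congrArg Subtype.val h4).symm
      · intro h4
        exact h.1 (congrArg Subtype.val h4).symm
      · intro h4
        exact h.2 (congrArg Subtype.val h4).symm
    have h4 := Finset.card_le_univ ({⟨1, one_mem _⟩, ⟨z, hz⟩, ⟨x, hx⟩} : Finset p.ker)
    rw [h3, ← Nat.card_eq_fintype_card, hk] at h4
    omega
  have hpush : ∀ (f : A → F) (x : A), H75.push p f (p x) = f x + f (z * x) := by
    intro f x
    rw [H75.push_eq, ← Finset.sum_filter]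
    have h1 : (Finset.univ.filter (fun t => p t = p x)) = {x, z * x} := by
      ext t
      rw [Finset.mem_filter, Finset.mem_insert, Finset.mem_singleton]
      constructor
      · rintro ⟨_, ht⟩
        have h2 : t * x⁻¹ ∈ p.ker := by
          rw [MonoidHom.mem_ker, map_mul, map_inv, ht, mul_inv_cancel]
        rcases hker _ h2 with h3 | h3
        · left
          exact mul_inv_eq_one.1 h3
        · right
          rw [← h3, inv_mul_cancel_right]
      · rintro (rfl | rfl)
        · exact ⟨Finset.mem_univ _, rfl⟩
        · refine ⟨Finset.mem_univ _, ?_⟩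
          rw [map_mul, (MonoidHom.mem_ker).1 hz, one_mul]
    rw [h1, Finset.sum_pair]
    intro h2
    apply hz1
    have : 1 * x = z * x := by rw [one_mul]; exact h2
    exact (mul_right_cancel this).symm
  -- the restricted pushforward
  set VA := (cfs F A).map (actL e) with hVA
  set VB := (cfs F B).map (actL (H75.push p e)) with hVB
  set L := (pushL (F := F) p).domRestrict VA with hL
  have hrange : LinearMap.range L ≤ VB := by
    rintro _ ⟨⟨f, hf⟩, rfl⟩
    rw [hVA, mem_img he] at hf
    rw [hVB, mem_img heB]
    change IsCl (H75.push p f) ∧ actF (H75.push p e) (H75.push p f) = H75.push p f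
    refine ⟨H75.push_isCl hp hf.1, ?_⟩
    rw [← push_actF hp, hf.2]
  have hkerL : (LinearMap.ker L).map VA.subtype ≤ VB.map (pullL p) := by
    rintro _ ⟨⟨f, hf⟩, hf0, rfl⟩
    rw [hVA, mem_img he] at hf
    change f ∈ _
    have h0 : H75.push p f = 0 := hf0
    have h1 : ∀ x, f (z * x) = f x := by
      intro x
      have h2 : f x + f (z * x) = 0 := by
        rw [← hpush, h0]
        rfl
      have h3 : f x + f x = 0 := CharTwo.add_self_eq_zero (f x)
      exact add_left_cancel (h2.trans h3.symm)
    set s : B → A := Function.surjInv hp with hs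
    have hps : ∀ y, p (s y) = y := Function.surjInv_eq hp
    have h2 : ∀ x, f (s (p x)) = f x := by
      intro x
      have h3 : s (p x) * x⁻¹ ∈ p.ker := by
        rw [MonoidHom.mem_ker, map_mul, map_inv, hps, mul_inv_cancel]
      rcases hker _ h3 with h4 | h4
      · rw [mul_inv_eq_one.1 h4]
      · rw [mul_inv_eq_iff_eq_mul.1 h4, h1]
    have h3 : (fun x => (fun y => f (s y)) (p x)) = f := by
      funext x
      exact h2 x
    refine ⟨fun y => f (s y), ?_, h3⟩
    change (fun y => f (s y)) ∈ VB
    rw [hVB, mem_img heB]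
    constructor
    · intro y w
      obtain ⟨a, rfl⟩ := hp y
      obtain ⟨b, rfl⟩ := hp w
      change f (s (p b * p a * (p b)⁻¹)) = f (s (p a))
      rw [h2, ← map_inv, ← map_mul, ← map_mul, h2]
      exact hf.1 a b
    · funext y
      obtain ⟨a, rfl⟩ := hp y
      rw [H75.actF_push, h3, hf.2]
      exact (h2 a).symm
  have e1 := LinearMap.finrank_range_add_finrank_ker L
  have e2 : Module.finrank F (LinearMap.range L) ≤ Module.finrank F VB :=
    Submodule.finrank_mono hrange
  have e3 : Module.finrank F (LinearMap.ker L) ≤ Module.finrank F VB := by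
    have h1 : Module.finrank F ((LinearMap.ker L).map VA.subtype) =
        Module.finrank F (LinearMap.ker L) :=
      (Submodule.equivMapOfInjective VA.subtype VA.injective_subtype
        (LinearMap.ker L)).finrank_eq.symm
    have h2 := Submodule.finrank_mono hkerL
    have h3 := Submodule.finrank_map_le (pullL (F := F) p) VB
    omega
  change Module.finrank F VA ≤ 2 * Module.finrank F VB
  omega

end Pool.Agent.PP.KF.H4
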